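import Pool.Agent.H84.TO.TargetsT

/-!
TR1: upper bound of the traces of the powers of the weighted Hankel matrix by pointwise positivity.
-/

open MeasureTheory Filter Topology

namespace Pool.Agent.H84.TO

private theorem tr1_conv_int {g h : ℝ → ℝ} (hg : Integrable g) (hh : Integrable h) :
    Integrable (fun p : ℝ × ℝ => h (p.1 - p.2) * g p.2) (volume.prod volume) := by
  have h1 := hg.convolution_integrand (ContinuousLinearMap.mul ℝ ℝ) (μ := volume) hh
  refine h1.congr (Eventually.of_forall fun p => ?_)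
  exact mul_comm _ _

private theorem tr1_conv {g h : ℝ → ℝ} (hg : Integrable g) (hh : Integrable h) :
    Integrable (fun y => ∫ z, h (y - z) * g z) :=
  (tr1_conv_int hg hh).integral_prod_left

private theorem tr1_fubini {K g u : ℝ → ℝ} (hKc : Continuous K) {B : ℝ} (hKb : ∀ y, |K y| ≤ B)
    (hg : Integrable g) (hu : Integrable u) (y : ℝ) :
    ∫ z, K (y - z) * (∫ w, g (z - w) * u w) = ∫ w, (∫ z, K ((y - w) - z) * g z) * u w := by
  have h1 : ∀ z, K (y - z) * (∫ w, g (z - w) * u w) = ∫ w, K (y - z) * (g (z - w) * u w) :=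
    fun z => (integral_const_mul _ _).symm
  simp_rw [h1]
  have h2 : Integrable (Function.uncurry fun z w => K (y - z) * (g (z - w) * u w))
      ((volume : Measure ℝ).prod volume) := by
    refine (tr1_conv_int hu hg).bdd_mul (c := B) ?_ (Eventually.of_forall fun p => ?_)
    · exact (hKc.comp (by fun_prop : Continuous fun p : ℝ × ℝ => y - p.1)).aestronglyMeasurable
    · exact hKb _
  rw [integral_integral_swap h2]
  refine integral_congr_ae (Eventually.of_forall fun w => ?_)
  simp only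
  have h3 : ∀ z, K (y - z) * (g (z - w) * u w) = (K (y - z) * g (z - w)) * u w := fun z => by ring
  simp_rw [h3]
  rw [integral_mul_const]
  congr 1
  have h4 := integral_sub_right_eq_self (μ := (volume : Measure ℝ))
    (fun z => K (y - w - z) * g z) w
  rw [← h4]
  refine integral_congr_ae (Eventually.of_forall fun z => ?_)
  simp only
  rw [show y - w - (z - w) = y - z by ring]

private theorem tr1_step {n : ℕ} {u : ℕ → ℝ → ℝ} {K : ℝ → ℝ}
    (hKc : Continuous K) {B : ℝ} (hKb : ∀ y, |K y| ≤ B) (hu0 : ∀ k y, 0 ≤ u k y)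
    (huc : ∀ k, Continuous (u k))
    (hsum : ∀ y z, HasSum (fun k => u k y * u k z) ((K (y - z) + K (y + z)) / 2))
    {U V : ℝ → ℝ} (hU0 : ∀ y, 0 ≤ U y) (hUV : ∀ y, U y ≤ V y) (hUi : Integrable U)
    (hVi : Integrable V) (hVe : ∀ y, V (-y) = V y) (y : ℝ) :
    ∫ z, (∑ k : Fin n, u k y * u k z) * U z ≤ ∫ z, K (y - z) * V z := by
  have h1 : ∀ z, (∑ k : Fin n, u k y * u k z) ≤ (K (y - z) + K (y + z)) / 2 := by
    intro z
    rw [Fin.sum_univ_eq_sum_range (fun k => u k y * u k z) n]
    exact sum_le_hasSum _ (fun k _ => mul_nonneg (hu0 k y) (hu0 k z)) (hsum y z)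
  have h2 : ∀ z, 0 ≤ (∑ k : Fin n, u k y * u k z) := fun z =>
    Finset.sum_nonneg fun k _ => mul_nonneg (hu0 k y) (hu0 k z)
  have i1 : Integrable fun z => K (y - z) * V z :=
    hVi.bdd_mul (c := B) (hKc.comp (by fun_prop : Continuous fun z => y - z)).aestronglyMeasurable
      (Eventually.of_forall fun z => hKb _)
  have i2 : Integrable fun z => K (y + z) * V z :=
    hVi.bdd_mul (c := B) (hKc.comp (by fun_prop : Continuous fun z => y + z)).aestronglyMeasurable
      (Eventually.of_forall fun z => hKb _)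
  have i3 : Integrable fun z => (∑ k : Fin n, u k y * u k z) * U z := by
    refine hUi.bdd_mul (c := B) ?_ (Eventually.of_forall fun z => ?_)
    · refine (continuous_finsetSum _ fun k _ => ?_).aestronglyMeasurable
      exact continuous_const.mul (huc k)
    · rw [Real.norm_eq_abs, abs_of_nonneg (h2 z)]
      refine (h1 z).trans ?_
      have b1 := (abs_le.1 (hKb (y - z))).2
      have b2 := (abs_le.1 (hKb (y + z))).2
      linarith
  have e2 : ∫ z, K (y + z) * V z = ∫ z, K (y - z) * V z := by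
    rw [← integral_neg_eq_self (fun z => K (y + z) * V z)]
    refine integral_congr_ae (Eventually.of_forall fun z => ?_)
    simp only
    rw [hVe, sub_eq_add_neg]
  have e3 : ∫ z, K (y - z) * V z = ∫ z, (K (y - z) + K (y + z)) / 2 * V z := by
    have : ∀ z, (K (y - z) + K (y + z)) / 2 * V z =
        (1 / 2) * (K (y - z) * V z) + (1 / 2) * (K (y + z) * V z) := fun z => by ring
    simp_rw [this]
    rw [integral_add (i1.const_mul _) (i2.const_mul _), integral_const_mul, integral_const_mul, e2]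
    ring
  rw [e3]
  refine integral_mono i3 ?_ fun z => ?_
  · have : ∀ z, (K (y - z) + K (y + z)) / 2 * V z =
        (1 / 2) * (K (y - z) * V z) + (1 / 2) * (K (y + z) * V z) := fun z => by ring
    simp_rw [this]
    exact (i1.const_mul _).add (i2.const_mul _)
  · exact mul_le_mul (h1 z) (hUV z) (hU0 z) ((h2 z).trans (h1 z))

private theorem tr1_gen {n : ℕ} {u : ℕ → ℝ → ℝ} {S : Matrix (Fin n) (Fin n) ℝ}
    (hS : ∀ k i : Fin n, ∫ y, u k y * u i y = S k i)
    (hSi : ∀ k i : Fin n, Integrable fun y => u k y * u i y) (p : ℕ) (j : Fin n) (a : Fin n → ℝ) :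
    ∫ z, (∑ k : Fin n, a k * u k z) * (∑ i : Fin n, (S ^ p) i j * u i z) =
      ∑ k : Fin n, a k * (S ^ (p + 1)) k j := by
  have h1 : ∀ z, (∑ k : Fin n, a k * u k z) * (∑ i : Fin n, (S ^ p) i j * u i z) =
      ∑ k : Fin n, ∑ i : Fin n, (a k * (S ^ p) i j) * (u k z * u i z) := by
    intro z
    rw [Finset.sum_mul_sum]
    refine Finset.sum_congr rfl fun k _ => Finset.sum_congr rfl fun i _ => ?_
    ring
  simp_rw [h1]
  rw [integral_finsetSum _ fun k _ => integrable_finsetSum _ fun i _ => (hSi k i).const_mul _]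
  refine Finset.sum_congr rfl fun k _ => ?_
  rw [integral_finsetSum _ fun i _ => (hSi k i).const_mul _, pow_succ', Matrix.mul_apply,
    Finset.mul_sum]
  refine Finset.sum_congr rfl fun i _ => ?_
  rw [integral_const_mul, hS]
  ring

theorem tr1 (hSUM : T_SUM) (hGRM : T_GRM) (hUB : T_UB) (hK3 : T_K3) : T_TR1 := by
  intro ℓ hℓ m hm n
  obtain ⟨C, hC, -, hub⟩ := hUB ℓ hℓ
  obtain ⟨g1, g2, -, g3⟩ := hGRM ℓ hℓ
  obtain ⟨q1, q2⟩ := hK3 ℓ (by omega)
  have hq : km ℓ 1 = kk ℓ := funext q1
  have kc : Continuous (kk ℓ) := hq ▸ (q2 1 le_rfl).1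
  set u : ℕ → ℝ → ℝ := uj ℓ with hu
  set S := SS ℓ n with hSdef
  have hS : ∀ k i : Fin n, ∫ y, u k y * u i y = S k i := fun k i => (g1 k i).2
  have hSi : ∀ k i : Fin n, Integrable fun y => u k y * u i y := fun k i => (g1 k i).1
  have hK0 : ∀ y, 0 ≤ kk ℓ y := hq ▸ (q2 1 le_rfl).2.2.1
  have hKb : ∀ y, |kk ℓ y| ≤ kk ℓ 0 := fun y => by
    rw [abs_of_nonneg (hK0 y), ← q1, ← q1]
    exact (q2 1 le_rfl).2.2.2.1 y
  have hSp : ∀ p : ℕ, ∀ k i : Fin n, 0 ≤ (S ^ p) k i := by
    intro p
    induction p with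
    | zero =>
      intro k i
      rw [pow_zero, Matrix.one_apply]
      split_ifs <;> norm_num
    | succ p ih =>
      intro k i
      rw [pow_succ, Matrix.mul_apply]
      exact Finset.sum_nonneg fun l _ => mul_nonneg (ih k l) (g3 n l i)
  have hu0 : ∀ k y, 0 ≤ u k y := fun k y => (hub k y).1
  have hue : ∀ k y, u k (-y) = u k y := fun k y => (hub k y).2.1
  have huB : ∀ k, ∃ B, ∀ y, |u k y| ≤ B := by
    intro k
    refine ⟨C * ((k : ℝ) + 1) ^ (((ℓ : ℝ) - 1) / 2), fun y => ?_⟩
    rw [abs_of_nonneg (hu0 k y)]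
    refine (hub k y).2.2.trans ?_
    have h1 : Real.exp (-(ℓ : ℝ) * |y| / 2) ≤ 1 := by
      apply Real.exp_le_one_iff.2
      have : 0 ≤ (ℓ : ℝ) * |y| := by positivity
      linarith
    have h2 : 0 ≤ C * ((k : ℝ) + 1) ^ (((ℓ : ℝ) - 1) / 2) := by positivity
    nlinarith
  have hui : ∀ k, Integrable (u k) := fun k => (g2 k).2.1
  have huc : ∀ k, Continuous (u k) := fun k => (g2 k).1
  -- the comparison functions
  have key : ∀ j : Fin n, ∀ p : ℕ, 1 ≤ p → ∀ y,
      ∑ k : Fin n, (S ^ p) k j * u k y ≤ ∫ z, km ℓ p (y - z) * u j z := by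
    intro j p hp
    have hUi : ∀ p : ℕ, Integrable fun y => ∑ k : Fin n, (S ^ p) k j * u k y := fun p =>
      integrable_finsetSum _ fun k _ => (hui k).const_mul _
    have hU0 : ∀ (p : ℕ) (y : ℝ), 0 ≤ ∑ k : Fin n, (S ^ p) k j * u k y := fun p y =>
      Finset.sum_nonneg fun k _ => mul_nonneg (hSp p k j) (hu0 k y)
    have hU : ∀ (p : ℕ) (y : ℝ), ∑ k : Fin n, (S ^ (p + 1)) k j * u k y =
        ∫ z, (∑ k : Fin n, u k y * u k z) * ∑ k : Fin n, (S ^ p) k j * u k z := by
      intro p y
      rw [tr1_gen hS hSi p j fun k => u k y]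
      exact Finset.sum_congr rfl fun k _ => mul_comm _ _
    induction p, hp using Nat.le_induction with
    | base =>
      intro y
      have h1 := hU 0 y
      rw [zero_add] at h1
      rw [h1]
      have h2 : ∀ z, ∑ k : Fin n, (S ^ 0) k j * u k z = u j z := by
        intro z
        rw [pow_zero]
        simp [Matrix.one_apply]
      have h3 := tr1_step (n := n) kc hKb hu0 huc (hSUM ℓ hℓ)
        (U := fun z => ∑ k : Fin n, (S ^ 0) k j * u k z) (V := u j) (hU0 0) (fun z => (h2 z).le)
        (hUi 0) (hui j) (hue j) y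
      refine h3.trans_eq ?_
      simp_rw [q1]
    | succ p hp ih =>
      intro y
      rw [hU p y]
      obtain ⟨c1, c2, c3, c4, c5, -, c6, -⟩ := q2 p hp
      have h3 := tr1_step (n := n) kc hKb hu0 huc (hSUM ℓ hℓ)
        (U := fun z => ∑ k : Fin n, (S ^ p) k j * u k z)
        (V := fun z => ∫ w, km ℓ p (z - w) * u j w) (hU0 p) ih
        (hUi p) (tr1_conv (hui j) c2) ?_ y
      · refine h3.trans_eq ?_
        rw [tr1_fubini kc hKb c2 (hui j) y]
        simp_rw [c6]
      · intro z
        rw [← integral_neg_eq_self]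
        refine integral_congr_ae (Eventually.of_forall fun w => ?_)
        simp only
        rw [hue, show -z - -w = -(z - w) by ring, c5]
  -- the trace
  rw [Matrix.trace]
  refine Finset.sum_le_sum fun j _ => ?_
  rw [Matrix.diag_apply]
  obtain ⟨c1, c2, c3, c4, c5, -, c6, -⟩ := q2 m hm
  have h1 : (S ^ (m + 1)) j j = ∫ z, u j z * ∑ i : Fin n, (S ^ m) i j * u i z := by
    have h2 := tr1_gen hS hSi m j fun k => if k = j then 1 else 0
    simp only [ite_mul, one_mul, zero_mul, Finset.sum_ite_eq', Finset.mem_univ, if_true] at h2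
    exact h2.symm
  rw [h1]
  obtain ⟨B, hB⟩ := huB j
  refine integral_mono ?_ ?_ fun z => ?_
  · have h3 : Integrable fun z => ∑ i : Fin n, (S ^ m) i j * u i z :=
      integrable_finsetSum _ fun k _ => (hui k).const_mul _
    exact h3.bdd_mul (c := B) (huc j).aestronglyMeasurable (Eventually.of_forall fun z => hB z)
  · exact (tr1_conv (hui j) c2).bdd_mul (c := B)
      (huc j).aestronglyMeasurable (Eventually.of_forall fun z => hB z)
  · exact mul_le_mul_of_nonneg_left (key j m hm z) (hu0 j z)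

end Pool.Agent.H84.TO
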