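import Pool.Agent.H84.TO.TargetsT

/-!
TR2: upper bound of the traces, uniform in the power.
-/

open MeasureTheory Filter Topology

namespace Pool.Agent.H84.TO

private theorem tr2_harm (n : ℕ) (hn : 1 ≤ n) :
    ∑ j : Fin n, 1 / ((j : ℝ) + 1) ≤ 3 * Real.log (n + 1) := by
  have h1 : ∑ j : Fin n, 1 / ((j : ℝ) + 1) = (harmonic n : ℝ) := by
    rw [Fin.sum_univ_eq_sum_range (fun j : ℕ => 1 / ((j : ℝ) + 1)) n]
    unfold harmonic
    push_cast
    exact Finset.sum_congr rfl fun j _ => by rw [one_div]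
  rw [h1]
  have h2 := harmonic_le_one_add_log n
  have h3 : Real.log n ≤ Real.log (n + 1) :=
    Real.log_le_log (by exact_mod_cast hn) (by linarith)
  have h4 : Real.log 2 ≤ Real.log (n + 1) := by
    apply Real.log_le_log (by norm_num)
    have : (1 : ℝ) ≤ n := by exact_mod_cast hn
    linarith
  have h5 := Real.log_two_gt_d9
  linarith

theorem tr2 (hTR1 : T_TR1) (hGRM : T_GRM) (hUB : T_UB) (hK3 : T_K3) : T_TR2 := by
  intro ℓ hℓ
  obtain ⟨C, hC, hu1, hub⟩ := hUB ℓ hℓ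
  obtain ⟨-, q2⟩ := hK3 ℓ (by omega)
  obtain ⟨-, g2, -⟩ := hGRM ℓ hℓ
  refine ⟨3 * C ^ 2, fun m hm n hn => ?_⟩
  obtain ⟨c1, c2, c3, c4, -⟩ := q2 m hm
  have hM0 : 0 ≤ km ℓ m 0 := c3 0
  refine (hTR1 ℓ hℓ m hm n).trans ?_
  have hu0 : ∀ k y, 0 ≤ uj ℓ k y := fun k y => (hub k y).1
  have key : ∀ j : ℕ, ∫ y, uj ℓ j y * ∫ z, km ℓ m (y - z) * uj ℓ j z ≤
      km ℓ m 0 * C ^ 2 * (1 / ((j : ℝ) + 1)) := by
    intro j
    have hi : Integrable (uj ℓ j) := (g2 j).2.1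
    have hI0 : 0 ≤ ∫ y, uj ℓ j y := integral_nonneg fun y => hu0 j y
    have h1 : ∀ y, ∫ z, km ℓ m (y - z) * uj ℓ j z ≤ km ℓ m 0 * ∫ z, uj ℓ j z := by
      intro y
      rw [← integral_const_mul]
      refine integral_mono_of_nonneg (Eventually.of_forall fun z => ?_) (hi.const_mul _)
        (Eventually.of_forall fun z => ?_)
      · exact mul_nonneg (c3 _) (hu0 _ _)
      · exact mul_le_mul_of_nonneg_right (c4 _) (hu0 _ _)
    have h2 : ∫ y, uj ℓ j y * ∫ z, km ℓ m (y - z) * uj ℓ j z ≤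
        ∫ y, uj ℓ j y * (km ℓ m 0 * ∫ z, uj ℓ j z) := by
      refine integral_mono_of_nonneg (Eventually.of_forall fun y => ?_) (hi.mul_const _)
        (Eventually.of_forall fun y => ?_)
      · exact mul_nonneg (hu0 _ _) (integral_nonneg fun z => mul_nonneg (c3 _) (hu0 _ _))
      · exact mul_le_mul_of_nonneg_left (h1 y) (hu0 _ _)
    refine h2.trans ?_
    rw [integral_mul_const]
    have h3 := hu1 j
    have h4 : (∫ y, uj ℓ j y) * (∫ y, uj ℓ j y) ≤ (C / Real.sqrt (j + 1)) * (C / Real.sqrt (j + 1)) :=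
      mul_le_mul h3 h3 hI0 (hI0.trans h3)
    have h5 : (C / Real.sqrt (j + 1)) * (C / Real.sqrt (j + 1)) = C ^ 2 * (1 / ((j : ℝ) + 1)) := by
      rw [div_mul_div_comm, Real.mul_self_sqrt (by positivity)]
      ring
    rw [h5] at h4
    calc (∫ y, uj ℓ j y) * (km ℓ m 0 * ∫ z, uj ℓ j z)
        = km ℓ m 0 * ((∫ y, uj ℓ j y) * (∫ y, uj ℓ j y)) := by ring
      _ ≤ km ℓ m 0 * (C ^ 2 * (1 / ((j : ℝ) + 1))) := mul_le_mul_of_nonneg_left h4 hM0
      _ = _ := by ring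
  have h0 : ∑ j : Fin n, ∫ y, uj ℓ j y * ∫ z, km ℓ m (y - z) * uj ℓ j z ≤
      ∑ j : Fin n, km ℓ m 0 * C ^ 2 * (1 / ((j : ℝ) + 1)) :=
    Finset.sum_le_sum fun j _ => key (j : ℕ)
  refine h0.trans ?_
  rw [← Finset.mul_sum]
  have h6 := tr2_harm n hn
  calc km ℓ m 0 * C ^ 2 * ∑ j : Fin n, 1 / ((j : ℝ) + 1)
      ≤ km ℓ m 0 * C ^ 2 * (3 * Real.log (n + 1)) :=
        mul_le_mul_of_nonneg_left h6 (by positivity)
    _ = _ := by ring

end Pool.Agent.H84.TO
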